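import Mathlib

set_option autoImplicit false

/-! Alternating sums of products: Laplace expansion, anticommuting families, a central entry. -/

namespace Pool.Agent.U388.PZ

open Equiv

variable {A : Type*} [Ring A]

/-- the `n`-ary commutator `∑ sgn(σ) b_{σ(1)} ⋯ b_{σ(n)}` -/
def sN {n : ℕ} (b : Fin n → A) : A :=
  ∑ σ : Perm (Fin n), ((Perm.sign σ : ℤˣ) : ℤ) • (List.ofFn (fun i => b (σ i))).prod

theorem sN_succ {m : ℕ} (b : Fin (m + 1) → A) :
    sN b = ∑ i : Fin (m + 1), (-1 : ℤ) ^ (i : ℕ) • (b i * sN (fun j => b (i.succAbove j))) := by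
  classical
  let e : Fin (m + 1) × Perm (Fin m) → Perm (Fin (m + 1)) := fun p =>
    (Fin.cycleRange p.1)⁻¹ * Perm.decomposeFin.symm (0, p.2)
  have he0 : ∀ p, e p 0 = p.1 := by
    intro p
    show (Fin.cycleRange p.1).symm (Perm.decomposeFin.symm (0, p.2) 0) = p.1
    rw [Perm.decomposeFin_symm_apply_zero, Fin.cycleRange_symm_zero]
  have hes : ∀ p (j : Fin m), e p j.succ = p.1.succAbove (p.2 j) := by
    intro p j
    show (Fin.cycleRange p.1).symm (Perm.decomposeFin.symm (0, p.2) j.succ) = _
    rw [Perm.decomposeFin_symm_apply_succ, swap_self, Equiv.refl_apply, Fin.cycleRange_symm_succ]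
  have hsign : ∀ p, Perm.sign (e p) = (-1) ^ (p.1 : ℕ) * Perm.sign p.2 := by
    intro p
    show Perm.sign ((Fin.cycleRange p.1)⁻¹ * Perm.decomposeFin.symm (0, p.2)) = _
    rw [Perm.sign_mul, Perm.sign_inv, Fin.sign_cycleRange, Equiv.Perm.decomposeFin.symm_sign,
      if_pos rfl, one_mul]
  have hinj : Function.Injective e := by
    rintro ⟨i, τ⟩ ⟨i', τ'⟩ h
    have h0 : i = i' := by
      have := he0 (i, τ)
      rw [h, he0] at this
      exact this.symm
    subst h0
    refine Prod.ext rfl ?_
    ext j
    have h1 := hes (i, τ) j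
    rw [h, hes] at h1
    have h2 := Fin.succAbove_right_injective h1
    exact congrArg Fin.val h2.symm
  have hbij : Function.Bijective e := by
    rw [Fintype.bijective_iff_injective_and_card]
    refine ⟨hinj, ?_⟩
    rw [Fintype.card_prod, Fintype.card_perm, Fintype.card_perm, Fintype.card_fin,
      Fintype.card_fin, Nat.factorial_succ]
  unfold sN
  rw [← hbij.sum_comp, Fintype.sum_prod_type]
  refine Finset.sum_congr rfl (fun i _ => ?_)
  rw [Finset.mul_sum, Finset.smul_sum]
  refine Finset.sum_congr rfl (fun τ _ => ?_)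
  rw [List.ofFn_succ, List.prod_cons, he0, hsign]
  have : (fun j : Fin m => b (e (i, τ) j.succ)) = fun j => b (i.succAbove (τ j)) := by
    funext j; rw [hes]
  rw [this]
  push_cast
  rw [mul_smul_comm, mul_smul]

/-- moving a factor of an anticommuting product to the front -/
theorem move_prod {m : ℕ} (b : Fin (m + 1) → A)
    (h : ∀ i j, i ≠ j → b i * b j = -(b j * b i)) (i : Fin (m + 1)) :
    b i * (List.ofFn (fun j => b (i.succAbove j))).prod = (-1 : ℤ) ^ (i : ℕ) • (List.ofFn b).prod := by
  induction m with
  | zero =>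
    have : i = 0 := Fin.ext (by omega)
    subst this
    simp
  | succ m ih =>
    refine Fin.cases ?_ (fun k => ?_) i
    · rw [List.ofFn_succ (f := b), List.prod_cons]
      simp
    · rw [List.ofFn_succ, List.prod_cons]
      have h0 : (k.succ).succAbove 0 = 0 := Fin.succ_succAbove_zero k
      rw [h0]
      have h1 : (fun j : Fin m => b ((k.succ).succAbove j.succ)) =
          fun j => (fun l : Fin (m + 1) => b l.succ) (k.succAbove j) := by
        funext j; rw [Fin.succ_succAbove_succ]
      rw [h1, ← mul_assoc, h k.succ 0 (Fin.succ_ne_zero k), neg_mul, mul_assoc,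
        ih (fun l => b l.succ) (fun i j hij => h _ _ (fun h' => hij (Fin.succ_injective _ h'))) k,
        List.ofFn_succ (f := b), List.prod_cons, Fin.val_succ, pow_succ]
      rw [mul_smul_comm]
      simp

theorem sN_anti {m : ℕ} (b : Fin m → A) (h : ∀ i j, i ≠ j → b i * b j = -(b j * b i)) :
    sN b = (m.factorial : ℤ) • (List.ofFn b).prod := by
  induction m with
  | zero =>
    unfold sN
    simp
  | succ m ih =>
    rw [sN_succ]
    have : ∀ i : Fin (m + 1), (-1 : ℤ) ^ (i : ℕ) • (b i * sN (fun j => b (i.succAbove j))) =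
        (m.factorial : ℤ) • (List.ofFn b).prod := by
      intro i
      rw [ih (fun j => b (i.succAbove j)) (fun j k hjk => h _ _
        (fun h' => hjk (Fin.succAbove_right_injective h')))]
      rw [mul_smul_comm, move_prod b h i, smul_comm, ← mul_smul ((-1 : ℤ) ^ (i : ℕ)), ← mul_pow]
      simp
    rw [Finset.sum_congr rfl (fun i _ => this i), Finset.sum_const, Finset.card_univ,
      Fintype.card_fin, ← natCast_zsmul, ← mul_smul, Nat.factorial_succ]
    push_cast
    rfl

/-- a central last entry -/
theorem sN_central {m : ℕ} (b : Fin (m + 1) → A) (z : A) (hz : b (Fin.last m) = z)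
    (hc : ∀ i, z * b i = b i * z) :
    sN b = if Even m then z * sN (fun j : Fin m => b j.castSucc) else 0 := by
  induction m with
  | zero =>
    rw [if_pos (by decide)]
    unfold sN
    have : b 0 = z := hz
    simp [this]
  | succ m ih =>
    rw [sN_succ, Fin.sum_univ_castSucc]
    have hlast : (fun j => b ((Fin.last (m + 1)).succAbove j)) = fun j => b j.castSucc := by
      funext j; rw [Fin.succAbove_last]
    have hk : ∀ k : Fin (m + 1), sN (fun j => b ((k.castSucc).succAbove j)) =
        if Even m then z * sN (fun j : Fin m => b (k.succAbove j).castSucc) else 0 := by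
      intro k
      have h1 := ih (fun j => b ((k.castSucc).succAbove j)) (by
        rw [← hz]
        congr 1
        rw [Fin.succAbove_of_le_castSucc]
        · rfl
        · rw [Fin.castSucc_le_castSucc_iff]; exact Fin.le_last k) (fun i => hc _)
      rw [h1]
      have h2 : (fun j : Fin m => b ((k.castSucc).succAbove j.castSucc)) =
          fun j => b (k.succAbove j).castSucc := by
        funext j; rw [Fin.castSucc_succAbove_castSucc]
      rw [h2]
    rw [hlast, hz]
    by_cases hm : Even m
    · have hm' : ¬ Even (m + 1) := by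
        rw [Nat.even_add_one]; simpa using hm
      rw [if_neg hm']
      have h3 : ∀ k : Fin (m + 1), (-1 : ℤ) ^ ((k.castSucc : Fin (m + 2)) : ℕ) •
          (b k.castSucc * sN (fun j => b ((k.castSucc).succAbove j))) =
          z * ((-1 : ℤ) ^ (k : ℕ) • (b k.castSucc * sN (fun j : Fin m => b (k.succAbove j).castSucc))) := by
        intro k
        rw [hk k, if_pos hm, Fin.val_castSucc, ← mul_assoc, ← hc, mul_assoc, mul_smul_comm]
      rw [Finset.sum_congr rfl (fun k _ => h3 k), ← Finset.mul_sum,
        ← sN_succ (fun j : Fin (m + 1) => b j.castSucc), Fin.val_last]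
      have h4 : (-1 : ℤ) ^ (m + 1) = -1 := Odd.neg_one_pow (by
        rcases Nat.even_or_odd (m + 1) with h | h
        · exact absurd h hm'
        · exact h)
      rw [h4]; simp
    · have hm' : Even (m + 1) := by
        rw [Nat.even_add_one]; exact hm
      rw [if_pos hm']
      have h3 : ∀ k : Fin (m + 1), (-1 : ℤ) ^ ((k.castSucc : Fin (m + 2)) : ℕ) •
          (b k.castSucc * sN (fun j => b ((k.castSucc).succAbove j))) = 0 := by
        intro k
        rw [hk k, if_neg hm]; simp
      rw [Finset.sum_congr rfl (fun k _ => h3 k), Finset.sum_const_zero, zero_add, Fin.val_last,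
        hm'.neg_one_pow, one_smul]

end Pool.Agent.U388.PZ
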