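import Mathlib
import Pool.Agent.U388.PZ.Comm

set_option autoImplicit false

namespace Pool.Agent.U388.PZ

open Equiv

universe u

/-- the bracket of the simple `n`-Lie algebra `L_{n+1}` on `F^{n+1}` (indices `0, …, n`), as a
generalised cross product: `[v_1, …, v_n]_k = (-1)^{n+k} det (v_j without its k-th coordinate)_j` -/
noncomputable def filippov (F : Type u) [Field F] (n : ℕ) :
    (Fin (n + 1) → F) [⋀^Fin n]→ₗ[F] (Fin (n + 1) → F) :=
  AlternatingMap.pi fun k : Fin (n + 1) => ((-1 : F) ^ (n + (k : ℕ))) •
    (Matrix.detRowAlternating (n := Fin n) (R := F)).compLinearMap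
      (LinearMap.funLeft F F k.succAbove)

theorem filippov_apply (F : Type u) [Field F] (n : ℕ) (v : Fin n → Fin (n + 1) → F)
    (k : Fin (n + 1)) : filippov F n v k =
      (-1 : F) ^ (n + (k : ℕ)) * Matrix.det (fun j l => v j (k.succAbove l)) := rfl

/-- the defining relations: `[e_0, …, ê_k, …, e_n] = (-1)^{n+k} e_k` -/
theorem filippov_basis (F : Type u) [Field F] (n : ℕ) (k : Fin (n + 1)) :
    filippov F n (fun j => Pi.single (k.succAbove j) 1) = (-1 : F) ^ (n + (k : ℕ)) • Pi.single k 1 := by
  funext l
  rw [filippov_apply, Pi.smul_apply, smul_eq_mul]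
  by_cases hkl : l = k
  · subst hkl
    rw [Pi.single_eq_same, mul_one]
    have : (fun j m => (Pi.single (l.succAbove j) (1 : F) : Fin (n + 1) → F) (l.succAbove m)) =
        (1 : Matrix (Fin n) (Fin n) F) := by
      funext j m
      rw [Pi.single_apply, Matrix.one_apply]
      by_cases h : j = m
      · subst h; simp
      · rw [if_neg h, if_neg]
        intro h'; exact h (Fin.succAbove_right_injective h').symm
    rw [this, Matrix.det_one, mul_one]
  · rw [Pi.single_eq_of_ne hkl, mul_zero]
    -- the row with `k.succAbove j = l` vanishes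
    obtain ⟨j, hj⟩ := Fin.exists_succAbove_eq hkl
    rw [Matrix.det_eq_zero_of_row_eq_zero j, mul_zero]
    intro m
    show (Pi.single (k.succAbove j) (1 : F) : Fin (n + 1) → F) (l.succAbove m) = 0
    rw [hj]
    exact Pi.single_eq_of_ne (Fin.succAbove_ne l m) _

/-- the `n`-ary commutator as an alternating map -/
noncomputable def commAlt (F : Type u) [Field F] (n : ℕ) {V A : Type*} [AddCommGroup V] [Module F V]
    [Ring A] [Algebra F A] (φ : V →ₗ[F] A) : V [⋀^Fin n]→ₗ[F] A :=
  (MultilinearMap.alternatization (MultilinearMap.mkPiAlgebraFin F n A)).compLinearMap φ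

theorem commAlt_apply (F : Type u) [Field F] (n : ℕ) {V A : Type*} [AddCommGroup V] [Module F V]
    [Ring A] [Algebra F A] (φ : V →ₗ[F] A) (v : Fin n → V) :
    commAlt F n φ v = sN (fun i => φ (v i)) := by
  unfold commAlt sN
  rw [AlternatingMap.compLinearMap_apply, MultilinearMap.alternatization_apply]
  rfl

/-- two alternating maps on `F^{n+1}` in `n` variables agree if they agree on all increasing
tuples of basis vectors -/
theorem ext_succAbove {F : Type u} [Field F] {n : ℕ} {N : Type*} [AddCommGroup N] [Module F N]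
    {f g : (Fin (n + 1) → F) [⋀^Fin n]→ₗ[F] N}
    (h : ∀ k : Fin (n + 1), f (fun j => Pi.single (k.succAbove j) 1) =
      g (fun j => Pi.single (k.succAbove j) 1)) : f = g := by
  refine Module.Basis.ext_alternating (Pi.basisFun F (Fin (n + 1))) (fun v hv => ?_)
  -- some index is missed
  obtain ⟨k, hk⟩ : ∃ k, ∀ j, v j ≠ k := by
    by_contra hc
    push Not at hc
    have hs : Function.Surjective v := hc
    have := Fintype.card_le_of_surjective v hs
    simp at this
  have hw : ∀ j, ∃ m, k.succAbove m = v j := fun j => Fin.exists_succAbove_eq (hk j)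
  choose w hw using hw
  have hwi : Function.Injective w := by
    intro a b hab
    apply hv
    rw [← hw a, ← hw b, hab]
  let σ : Perm (Fin n) := Equiv.ofBijective w (Finite.injective_iff_bijective.mp hwi)
  have hv' : (fun i => (Pi.basisFun F (Fin (n + 1))) (v i)) =
      (fun j => (Pi.single (k.succAbove j) (1 : F) : Fin (n + 1) → F)) ∘ σ := by
    funext i
    rw [Pi.basisFun_apply, Function.comp_apply]
    show _ = Pi.single (k.succAbove (w i)) 1
    rw [hw i]
  rw [hv', AlternatingMap.map_perm, AlternatingMap.map_perm, h k]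

theorem prod_smul {F A : Type*} [Field F] [Ring A] [Algebra F A] (c : F) {m : ℕ} (b : Fin m → A) :
    (List.ofFn (fun i => c • b i)).prod = c ^ m • (List.ofFn b).prod := by
  induction m with
  | zero => simp
  | succ m ih =>
    rw [List.ofFn_succ, List.ofFn_succ, List.prod_cons, List.prod_cons, ih, smul_mul_smul_comm,
      pow_succ']

/-- an element anticommuting with all factors -/
theorem anti_prod {A : Type*} [Ring A] {m : ℕ} (b : Fin m → A) (x : A)
    (h : ∀ i, x * b i = -(b i * x)) :
    x * (List.ofFn b).prod = (-1 : ℤ) ^ m • ((List.ofFn b).prod * x) := by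
  induction m with
  | zero => simp
  | succ m ih =>
    rw [List.ofFn_succ, List.prod_cons, ← mul_assoc, h, neg_mul, mul_assoc, ih _ (fun i => h _),
      mul_smul_comm, ← mul_assoc, pow_succ]
    simp

theorem sq_prod {A : Type*} [Ring A] {m : ℕ} (b : Fin m → A) (h1 : ∀ i, b i * b i = 1)
    (h : ∀ i j, i ≠ j → b i * b j = -(b j * b i)) :
    (List.ofFn b).prod * (List.ofFn b).prod = 1 ∨ (List.ofFn b).prod * (List.ofFn b).prod = -1 := by
  induction m with
  | zero => left; simp
  | succ m ih =>
    have ih' := ih (fun i => b i.succ) (fun i => h1 _)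
      (fun i j hij => h _ _ (fun h' => hij (Fin.succ_injective _ h')))
    have ha := anti_prod (fun i : Fin m => b i.succ) (b 0)
      (fun i => h _ _ (Fin.succ_ne_zero i).symm)
    rw [List.ofFn_succ, List.prod_cons]
    set P := (List.ofFn (fun i : Fin m => b i.succ)).prod
    have key : b 0 * P * (b 0 * P) = (-1 : ℤ) ^ m • (P * P) := by
      have h2 : P * b 0 = (-1 : ℤ) ^ m • (b 0 * P) := by
        rw [ha, ← mul_smul, ← mul_pow]; simp
      calc b 0 * P * (b 0 * P) = b 0 * (P * b 0) * P := by noncomm_ring
        _ = (-1 : ℤ) ^ m • (b 0 * b 0 * P * P) := by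
          rw [h2, mul_smul_comm, smul_mul_assoc]; congr 1; noncomm_ring
        _ = (-1 : ℤ) ^ m • (P * P) := by rw [h1 0, one_mul]
    rw [key]
    rcases neg_one_pow_eq_or ℤ m with hm | hm <;> rcases ih' with h' | h' <;> rw [hm, h'] <;> simp

/-- generators of a Clifford algebra -/
theorem exists_gens (F : Type u) [Field F] [CharZero F] (n : ℕ) :
    ∃ (A : Type u) (_ : Ring A) (_ : Algebra F A), Nontrivial A ∧ ∃ γ : Fin n → A,
      (∀ i, γ i * γ i = 1) ∧ ∀ i j, i ≠ j → γ i * γ j = -(γ j * γ i) := by
  let Q : QuadraticForm F (Fin n → F) := QuadraticMap.weightedSumSquares F (fun _ : Fin n => (1 : F))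
  haveI : Invertible (2 : F) := invertibleOfNonzero two_ne_zero
  refine ⟨CliffordAlgebra Q, inferInstance, inferInstance, inferInstance,
    fun i => CliffordAlgebra.ι Q (Pi.single i 1), ?_, ?_⟩
  · intro i
    rw [CliffordAlgebra.ι_sq_scalar]
    have : Q (Pi.single i 1) = 1 := by
      show QuadraticMap.weightedSumSquares F (fun _ : Fin n => (1 : F)) _ = 1
      rw [QuadraticMap.weightedSumSquares_apply]
      simp [Pi.single_apply]
    rw [this, map_one]
  · intro i j hij
    apply CliffordAlgebra.ι_mul_ι_comm_of_isOrtho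
    show Q _ = Q _ + Q _
    show QuadraticMap.weightedSumSquares F (fun _ : Fin n => (1 : F)) _ =
      QuadraticMap.weightedSumSquares F (fun _ : Fin n => (1 : F)) _ +
      QuadraticMap.weightedSumSquares F (fun _ : Fin n => (1 : F)) _
    rw [QuadraticMap.weightedSumSquares_apply, QuadraticMap.weightedSumSquares_apply,
      QuadraticMap.weightedSumSquares_apply]
    simp only [Pi.add_apply, add_mul, mul_add, smul_eq_mul, one_mul, Finset.sum_add_distrib]
    simp [Pi.single_apply, hij, hij.symm]

end Pool.Agent.U388.PZ
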