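import Mathlib
import Pool.Agent.U388.PZ.Main

set_option autoImplicit false

namespace Pool.Agent.U388.PZ

open Equiv

universe u

theorem core (F : Type u) [Field F] [IsAlgClosed F] [CharZero F] (n : ℕ) (hn : 3 ≤ n)
    (hodd : Odd n) :
    ∃ (A : Type u) (_ : Ring A) (_ : Algebra F A) (φ : (Fin (n + 1) → F) →ₗ[F] A),
      Function.Injective φ ∧
      ∀ v : Fin n → Fin (n + 1) → F, φ (filippov F n v) = sN (fun i => φ (v i)) := by
  obtain ⟨A, iA, iAl, hnt, γ, h1, h2⟩ := exists_gens F n
  obtain ⟨m, rfl⟩ : ∃ m, n = m + 1 := ⟨n - 1, by omega⟩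
  have hm : Even m := by
    rcases Nat.even_or_odd m with h | h
    · exact h
    · exact absurd hodd (by rw [Nat.not_odd_iff_even]; exact h.add_one)
  set ω : A := (List.ofFn γ).prod with hω
  -- products without one generator
  let P : Fin (m + 1) → A := fun k => (List.ofFn (fun j => γ (k.succAbove j))).prod
  have hmove : ∀ k, γ k * P k = (-1 : ℤ) ^ (k : ℕ) • ω := fun k => move_prod γ h2 k
  have hP : ∀ k, P k = (-1 : ℤ) ^ (k : ℕ) • (γ k * ω) := by
    intro k
    have := congrArg (fun x => γ k * x) (hmove k)
    rw [← mul_assoc, h1, one_mul, mul_smul_comm] at this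
    exact this
  have hcomm : ∀ k, γ k * ω = ω * γ k := by
    intro k
    have ha := anti_prod (fun j => γ (k.succAbove j)) (γ k)
      (fun j => h2 _ _ (Fin.succAbove_ne k j).symm)
    rw [hm.neg_one_pow, one_smul] at ha
    -- `γ k` commutes with `P k`
    have hω' : ω = (-1 : ℤ) ^ (k : ℕ) • (γ k * P k) := by
      rw [hmove k, ← mul_smul, ← mul_pow]; simp
    rw [hω', mul_smul_comm, smul_mul_assoc]
    congr 1
    show γ k * (γ k * P k) = γ k * P k * γ k
    have ha' : γ k * P k = P k * γ k := ha
    rw [mul_assoc, ← ha']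
  obtain ⟨ε, hε, hεsq⟩ : ∃ ε : F, ω * ω = algebraMap F A ε ∧ (ε = 1 ∨ ε = -1) := by
    rcases sq_prod γ h1 h2 with h | h
    · exact ⟨1, by rw [map_one]; exact h, Or.inl rfl⟩
    · exact ⟨-1, by rw [map_neg, map_one]; exact h, Or.inr rfl⟩
  have hε0 : ε ≠ 0 := by rcases hεsq with h | h <;> rw [h] <;> norm_num
  -- choice of the constants
  have hf1 : ((m + 1).factorial : F) ≠ 0 := by exact_mod_cast (m + 1).factorial_ne_zero
  have hf2 : (m.factorial : F) ≠ 0 := by exact_mod_cast m.factorial_ne_zero
  obtain ⟨β, hβ⟩ : ∃ β : F, β ^ (2 * m) = -(((m + 1).factorial : F) * (m.factorial : F) * ε)⁻¹ :=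
    IsAlgClosed.exists_pow_nat_eq _ (by omega)
  have hβ0 : β ≠ 0 := by
    rintro rfl
    rw [zero_pow (by omega)] at hβ
    have : (((m + 1).factorial : F) * (m.factorial : F) * ε)⁻¹ ≠ 0 :=
      inv_ne_zero (mul_ne_zero (mul_ne_zero hf1 hf2) hε0)
    exact this (neg_eq_zero.mp hβ.symm)
  set α : F := β ^ (m + 1) * ((m + 1).factorial : F) with hα
  have hα0 : α ≠ 0 := mul_ne_zero (pow_ne_zero _ hβ0) hf1
  have hαβ : α * β ^ m * (m.factorial : F) * ε = -β := by
    have e : α * β ^ m * (m.factorial : F) * ε =
        β ^ (2 * m) * (((m + 1).factorial : F) * (m.factorial : F) * ε) * β := by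
      rw [hα]; ring
    rw [e, hβ]
    field_simp
  -- the map
  let g : Fin (m + 1 + 1) → A := Fin.snoc (fun i => β • γ i) (α • ω)
  have hgc : ∀ i : Fin (m + 1), g i.castSucc = β • γ i := fun i => Fin.snoc_castSucc _ _ i
  have hgl : g (Fin.last (m + 1)) = α • ω := Fin.snoc_last _ _
  let φ : (Fin (m + 1 + 1) → F) →ₗ[F] A := (Pi.basisFun F (Fin (m + 1 + 1))).constr F g
  have hφ : ∀ i, φ (Pi.single i 1) = g i := by
    intro i
    have := (Pi.basisFun F (Fin (m + 1 + 1))).constr_basis F g i
    rwa [Pi.basisFun_apply] at this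
  have hφv : ∀ v : Fin (m + 1 + 1) → F, φ v =
      ∑ i : Fin (m + 1), v i.castSucc • (β • γ i) + v (Fin.last (m + 1)) • (α • ω) := by
    intro v
    show (Pi.basisFun F (Fin (m + 1 + 1))).constr F g v = _
    rw [Module.Basis.constr_apply_fintype, Fin.sum_univ_castSucc]
    simp only [Pi.basisFun_equivFun, LinearEquiv.refl_apply, hgc, hgl]
  refine ⟨A, iA, iAl, φ, ?_, ?_⟩
  · -- injectivity
    rw [injective_iff_map_eq_zero]
    intro v hv
    rw [hφv] at hv
    set x : A := ∑ i : Fin (m + 1), v i.castSucc • (β • γ i) with hx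
    have hxω : x = -(v (Fin.last (m + 1)) • (α • ω)) := eq_neg_of_add_eq_zero_left hv
    have hxc : ∀ j, x * γ j = γ j * x := by
      intro j
      rw [hxω, neg_mul, mul_neg, smul_mul_assoc, smul_mul_assoc, mul_smul_comm, mul_smul_comm,
        hcomm]
    have hanti : ∀ j, x * γ j + γ j * x = algebraMap F A (2 * (v j.castSucc * β)) := by
      intro j
      rw [hx, Finset.sum_mul, Finset.mul_sum, ← Finset.sum_add_distrib]
      rw [Finset.sum_eq_single j]
      · rw [smul_mul_assoc, smul_mul_assoc, mul_smul_comm, mul_smul_comm, h1,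
          Algebra.algebraMap_eq_smul_one, ← mul_smul, two_mul, add_smul]
      · intro i _ hij
        rw [smul_mul_assoc, smul_mul_assoc, mul_smul_comm, mul_smul_comm, h2 i j hij]
        simp
      · intro h; exact absurd (Finset.mem_univ j) h
    have hxj : ∀ j, x * γ j = algebraMap F A (v j.castSucc * β) := by
      intro j
      have h3 := hanti j
      rw [← hxc j, ← two_mul, map_mul, map_ofNat] at h3
      have h4 : (2 : A) * (x * γ j - algebraMap F A (v j.castSucc * β)) = 0 := by
        rw [mul_sub, h3, sub_self]
      have h5 : (2 : F) • (x * γ j - algebraMap F A (v j.castSucc * β)) = 0 := by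
        rw [Algebra.smul_def, map_ofNat]; exact h4
      rcases smul_eq_zero.mp h5 with h | h
      · exact absurd h two_ne_zero
      · exact sub_eq_zero.mp h
    have hxj' : ∀ j, x = (v j.castSucc * β) • γ j := by
      intro j
      have := congrArg (fun y => y * γ j) (hxj j)
      rw [mul_assoc, h1, mul_one, ← Algebra.smul_def] at this
      exact this
    have hinj : Function.Injective (algebraMap F A) := (algebraMap F A).injective
    have hv0 : ∀ j : Fin (m + 1), v j.castSucc = 0 := by
      intro j
      -- choose another index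
      obtain ⟨i, hij⟩ : ∃ i : Fin (m + 1), i ≠ j := by
        haveI : Nontrivial (Fin (m + 1)) := Fin.nontrivial_iff_two_le.mpr (by omega)
        exact exists_ne j
      have h3 := hanti j
      rw [hxj' i, smul_mul_assoc, mul_smul_comm, h2 i j hij, smul_neg, neg_add_cancel] at h3
      have h4 : (2 * (v j.castSucc * β)) = 0 := hinj (by rw [← h3, map_zero])
      rcases mul_eq_zero.mp h4 with h | h
      · exact absurd h two_ne_zero
      · rcases mul_eq_zero.mp h with h | h
        · exact h
        · exact absurd h hβ0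
    have hx0 : x = 0 := by
      rw [hx]
      apply Finset.sum_eq_zero
      intro i _
      rw [hv0 i, zero_smul]
    have hvl : v (Fin.last (m + 1)) = 0 := by
      rw [hx0, eq_comm, neg_eq_zero] at hxω
      have h6 : (v (Fin.last (m + 1)) * α * ε) • (1 : A) = 0 := by
        have h7 : (v (Fin.last (m + 1)) • (α • ω)) * ω = 0 := by rw [hxω, zero_mul]
        rw [smul_mul_assoc, smul_mul_assoc, hε, Algebra.algebraMap_eq_smul_one, ← mul_smul,
          ← mul_smul] at h7
        exact h7
      rcases smul_eq_zero.mp h6 with h | h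
      · rcases mul_eq_zero.mp h with h | h
        · rcases mul_eq_zero.mp h with h | h
          · exact h
          · exact absurd h hα0
        · exact absurd h hε0
      · exact absurd h one_ne_zero
    funext i
    refine Fin.lastCases ?_ (fun j => ?_) i
    · exact hvl
    · exact hv0 j
  · -- homomorphism
    have key : φ.compAlternatingMap (filippov F (m + 1)) = commAlt F (m + 1) φ := by
      apply ext_succAbove
      intro k
      rw [LinearMap.compAlternatingMap_apply, filippov_basis, map_smul, hφ, commAlt_apply]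
      have hsimp : (fun j => φ (Pi.single (k.succAbove j) 1)) = fun j => g (k.succAbove j) := by
        funext j; rw [hφ]
      rw [hsimp]
      refine Fin.lastCases ?_ (fun l => ?_) k
      · -- the tuple of all generators
        have e1 : (fun j => g ((Fin.last (m + 1)).succAbove j)) = fun j => β • γ j := by
          funext j; rw [Fin.succAbove_last, hgc]
        have hanti : ∀ i j, i ≠ j → (β • γ i) * (β • γ j) = -((β • γ j) * (β • γ i)) := by
          intro i j hij
          rw [smul_mul_smul_comm, smul_mul_smul_comm, h2 i j hij, smul_neg]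
        rw [e1, sN_anti _ hanti, prod_smul, hgl, Fin.val_last, ← two_mul,
          Even.neg_one_pow (even_two_mul _), one_smul, ← hω, hα]
        rw [← Int.cast_smul_eq_zsmul F, ← mul_smul]
        congr 1
        push_cast; ring
      · -- one generator missing
        have e2 : g ((l.castSucc).succAbove (Fin.last m)) = α • ω := by
          rw [← hgl]
          congr 1
          rw [Fin.succAbove_of_le_castSucc]
          · rfl
          · rw [Fin.castSucc_le_castSucc_iff]; exact Fin.le_last l
        have e3 : ∀ i, (α • ω) * g i = g i * (α • ω) := by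
          intro i
          refine Fin.lastCases ?_ (fun j => ?_) i
          · rw [hgl]
          · rw [hgc, smul_mul_smul_comm, smul_mul_smul_comm, hcomm, mul_comm]
        rw [sN_central _ (α • ω) e2 (fun i => e3 _), if_pos hm]
        have e4 : (fun j : Fin m => g ((l.castSucc).succAbove j.castSucc)) =
            fun j => β • γ (l.succAbove j) := by
          funext j; rw [Fin.castSucc_succAbove_castSucc, hgc]
        have hanti : ∀ i j : Fin m, i ≠ j → (β • γ (l.succAbove i)) * (β • γ (l.succAbove j)) =
            -((β • γ (l.succAbove j)) * (β • γ (l.succAbove i))) := by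
          intro i j hij
          rw [smul_mul_smul_comm, smul_mul_smul_comm,
            h2 _ _ (fun h => hij (Fin.succAbove_right_injective h)), smul_neg]
        rw [e4, sN_anti _ hanti, prod_smul]
        show _ = α • ω * ((m.factorial : ℤ) • β ^ m • P l)
        rw [hP, hgc, Fin.val_castSucc]
        rw [← Int.cast_smul_eq_zsmul F, ← Int.cast_smul_eq_zsmul F ((-1) ^ (l : ℕ)),
          smul_mul_assoc, mul_smul_comm, mul_smul_comm, mul_smul_comm, ← mul_assoc, ← hcomm,
          mul_assoc, hε, ← Algebra.commutes, ← Algebra.smul_def]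
        rw [← mul_smul, ← mul_smul, ← mul_smul, ← mul_smul, ← mul_smul]
        congr 1
        push_cast
        have e5 : (-1 : F) ^ (m + 1 + (l : ℕ)) = -(-1) ^ (l : ℕ) := by
          rw [add_assoc, pow_add, hm.neg_one_pow, one_mul, pow_add, pow_one]; ring
        rw [e5]
        calc -(-1 : F) ^ (l : ℕ) * β = (-1) ^ (l : ℕ) * (-β) := by ring
          _ = (-1) ^ (l : ℕ) * (α * β ^ m * (m.factorial : F) * ε) := by rw [hαβ]
          _ = _ := by ring
    intro v
    have := DFunLike.congr_fun key v
    rw [LinearMap.compAlternatingMap_apply, commAlt_apply] at this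
    exact this

end Pool.Agent.U388.PZ
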